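import Pool.Agent.Helper10.K3R.Defs
import Pool.Agent.Helper98.K3R.RA

/-!
# Module RC : the multiples of a small point are dense near zero (real place)
-/

namespace KumWA

open Classical Topology

namespace RC

variable {d : ℝ}

/-- local parameter at zero -/
noncomputable def tt (P : E d) : ℝ := xc P / yc P

/-- relation between `tt` and `xc` -/
theorem tt_rel {P : E d} (hP : 0 < |xc P|) (h : 9 * |d| ≤ |xc P|) :
    yc P ≠ 0 ∧ |tt P| ^ 2 * |xc P| ≤ 2 ∧ 2 / 3 ≤ |tt P| ^ 2 * |xc P| := by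
  have e := curve_eq P
  have e1 : yc P ^ 2 = xc P * (xc P ^ 2 + (4 * d * xc P + 2 * d ^ 2)) := by rw [e]; ring
  have hd := abs_nonneg d
  have e0 : |4 * d * xc P + 2 * d ^ 2| ≤ |xc P| ^ 2 / 2 := by
    refine (abs_add_le _ _).trans ?_
    rw [abs_mul, abs_mul, abs_mul, abs_pow, abs_of_pos (show (0 : ℝ) < 4 by norm_num),
      abs_of_pos (show (0 : ℝ) < 2 by norm_num)]
    nlinarith
  have hsq : |xc P ^ 2| = |xc P| ^ 2 := abs_pow _ _
  have e2 : |xc P| ^ 2 / 2 ≤ |xc P ^ 2 + (4 * d * xc P + 2 * d ^ 2)| := by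
    have h1 := abs_sub_abs_le_abs_sub (xc P ^ 2) (-(4 * d * xc P + 2 * d ^ 2))
    rw [abs_neg, sub_neg_eq_add, hsq] at h1
    linarith
  have e3 : |xc P ^ 2 + (4 * d * xc P + 2 * d ^ 2)| ≤ 3 / 2 * |xc P| ^ 2 := by
    have h1 := abs_add_le (xc P ^ 2) (4 * d * xc P + 2 * d ^ 2)
    rw [hsq] at h1
    linarith
  have hpos : 0 < |xc P| ^ 2 := by positivity
  have e4 : 0 < |xc P ^ 2 + (4 * d * xc P + 2 * d ^ 2)| := by linarith
  have e5 := congrArg abs e1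
  rw [abs_pow, abs_mul] at e5
  have hy : yc P ≠ 0 := by
    intro h0
    rw [h0, abs_zero] at e5
    have : 0 < |xc P| * |xc P ^ 2 + (4 * d * xc P + 2 * d ^ 2)| := by positivity
    rw [← e5] at this
    norm_num at this
  refine ⟨hy, ?_, ?_⟩
  · unfold tt
    rw [abs_div, div_pow, e5, div_mul_eq_mul_div, div_le_iff₀ (by positivity)]
    nlinarith
  · unfold tt
    rw [abs_div, div_pow, e5, div_mul_eq_mul_div, le_div_iff₀ (by positivity)]
    nlinarith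

/-- identity for the sum of two points -/
theorem tt_add_identity {P Q : E d} (hP : P ≠ 0) (hQ : Q ≠ 0)
    (hR : P + Q ≠ 0) (hxP : xc P ≠ 0) (hxQ : xc Q ≠ 0) (hxR : xc (P + Q) ≠ 0) (hyP : yc P ≠ 0)
    (hyQ : yc Q ≠ 0) (hyR : yc (P + Q) ≠ 0) :
    ∃ l : ℝ, l ^ 2 = (xc P * xc Q)⁻¹ + (xc P * xc (P + Q))⁻¹ + (xc Q * xc (P + Q))⁻¹ +
        4 * d * (xc P * xc Q * xc (P + Q))⁻¹ ∧
      tt (P + Q) - tt P - tt Q = (4 * d ^ 2 * l - 4 * d) * tt P * tt Q * tt (P + Q) := by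
  obtain ⟨L, c, h1, h2, h3, h4, h5, h6⟩ := line_add hP hQ hR
  have hc : c ≠ 0 := by
    rintro rfl
    have : xc P * xc Q * xc (P + Q) = 0 := by rw [h6]; ring
    exact (mul_ne_zero (mul_ne_zero hxP hxQ) hxR) this
  refine ⟨L / c, ?_, ?_⟩
  · have h4' : L ^ 2 = xc P + xc Q + xc (P + Q) + 4 * d := by linear_combination -h4
    rw [div_pow, h4', ← h6]
    field_simp
    ring
  · have hy : yc P * yc Q * yc (P + Q) ≠ 0 := mul_ne_zero (mul_ne_zero hyP hyQ) hyR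
    rw [tt, tt, tt]
    field_simp
    rw [h1, h2, h3]
    linear_combination (-c^3) * h4 * (-1) + (2 * L * c^2) * h5 + (3 * L^2 * c) * h6 + (- 4 * d * (d * L - c)) * h6

/-- the basic bound -/
noncomputable def BBi (d : ℝ) : ℝ := 2 + 10000 * |d|

theorem BB_two (d : ℝ) : 2 ≤ BBi d := by
  unfold BBi
  have h1 := abs_nonneg d
  linarith

theorem BB_rel {P : E d} (h : BBi d ≤ |xc P|) :
    0 < |xc P| ∧ 9 * |d| ≤ |xc P| := by
  have h1 := abs_nonneg d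
  have h2 := BB_two d
  refine ⟨by linarith, ?_⟩
  refine le_trans ?_ h
  unfold BBi
  linarith

@[simp] theorem tt_zero : tt (0 : E d) = 0 := by simp [tt]

@[simp] theorem tt_neg (P : E d) : tt (-P) = -tt P := by
  unfold tt; rw [xc_neg, yc_neg, div_neg]

/-- the basic domain -/
noncomputable def BC (d : ℝ) : ℝ :=
  Classical.choose (far_add d (R := BBi d) (by have := BB_two d; linarith))

theorem BB_le_BC (d : ℝ) : BBi d ≤ BC d :=
  (Classical.choose_spec (far_add d (R := BBi d) (by have := BB_two d; linarith))).1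

theorem BC_add {P Q : E d} (hP : Far (BC d) P) (hQ : Far (BC d) Q) : Far (BBi d) (P + Q) :=
  (Classical.choose_spec (far_add d (R := BBi d) (by have := BB_two d; linarith))).2 P Q hP hQ

theorem tt_sq_le {P : E d} (hP : Far (BBi d) P) : |tt P| ^ 2 * BBi d ≤ 2 := by
  rcases hP with rfl | hP
  · simp
  · obtain ⟨h1, h2⟩ := BB_rel hP
    obtain ⟨-, h3, -⟩ := tt_rel h1 h2
    refine le_trans ?_ h3
    gcongr

theorem tt_le_one {P : E d} (hP : Far (BBi d) P) : |tt P| ≤ 1 := by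
  have h3 := tt_sq_le hP
  have h4 := BB_two d
  have h5 : |tt P| ^ 2 * 2 ≤ 2 := by
    refine le_trans ?_ h3
    gcongr
  nlinarith [abs_nonneg (tt P)]

/-- approximate additivity -/
theorem tt_add_le {P Q : E d} (hP : Far (BC d) P) (hQ : Far (BC d) Q) :
    Far (BBi d) (P + Q) ∧
      |tt (P + Q) - tt P - tt Q| ≤ 1 / 1000 * max |tt P| |tt Q| := by
  have hB := BB_two d
  have hle := BB_le_BC d
  have hR : Far (BBi d) (P + Q) := BC_add hP hQ
  refine ⟨hR, ?_⟩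
  have hmax : 0 ≤ max |tt P| |tt Q| := le_max_of_le_left (abs_nonneg _)
  by_cases hP0 : P = 0
  · rw [hP0]; simp
  by_cases hQ0 : Q = 0
  · rw [hQ0]; simp
  by_cases hR0 : P + Q = 0
  · rw [hR0]
    have : Q = -P := (neg_eq_of_add_eq_zero_right hR0).symm
    rw [this]; simp
  have xP := (hP.mono hle).resolve_left hP0
  have xQ := (hQ.mono hle).resolve_left hQ0
  have xR := hR.resolve_left hR0
  obtain ⟨p1, p2⟩ := BB_rel xP
  obtain ⟨q1, q2⟩ := BB_rel xQ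
  obtain ⟨r1, r2⟩ := BB_rel xR
  obtain ⟨l, hl, e⟩ := tt_add_identity hP0 hQ0 hR0 (abs_pos.1 p1) (abs_pos.1 q1)
    (abs_pos.1 r1) (tt_rel p1 p2).1 (tt_rel q1 q2).1 (tt_rel r1 r2).1
  have hBpos : 0 < BBi d := by linarith
  have hd0 := abs_nonneg d
  have hl2 : |l| ^ 2 ≤ 4 / BBi d ^ 2 := by
    rw [← abs_pow, hl]
    have t1 : ∀ x y : ℝ, BBi d ≤ |x| → BBi d ≤ |y| → |(x * y)⁻¹| ≤ 1 / BBi d ^ 2 := by
      intro x y hx hy
      rw [abs_inv, abs_mul, one_div]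
      apply inv_anti₀ (by positivity)
      rw [sq]; gcongr
    have t2 : |4 * d * (xc P * xc Q * xc (P + Q))⁻¹| ≤ 1 / BBi d ^ 2 := by
      rw [abs_mul, abs_mul, abs_inv, abs_mul, abs_of_pos (show (0 : ℝ) < 4 by norm_num)]
      have h1 : BBi d * BBi d ^ 2 ≤ |xc P * xc Q| * |xc (P + Q)| := by
        rw [abs_mul]
        calc BBi d * BBi d ^ 2 = BBi d * BBi d * BBi d := by ring
          _ ≤ |xc P| * |xc Q| * |xc (P + Q)| := by gcongr
      have h2 : 4 * |d| ≤ BBi d := by unfold BBi; linarith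
      calc 4 * |d| * (|xc P * xc Q| * |xc (P + Q)|)⁻¹ ≤ BBi d * (BBi d * BBi d ^ 2)⁻¹ := by
            gcongr
        _ = 1 / BBi d ^ 2 := by field_simp
    have a1 := abs_add_le ((xc P * xc Q)⁻¹ + (xc P * xc (P + Q))⁻¹ + (xc Q * xc (P + Q))⁻¹)
      (4 * d * (xc P * xc Q * xc (P + Q))⁻¹)
    have a2 := abs_add_le ((xc P * xc Q)⁻¹ + (xc P * xc (P + Q))⁻¹) ((xc Q * xc (P + Q))⁻¹)
    have a3 := abs_add_le ((xc P * xc Q)⁻¹) ((xc P * xc (P + Q))⁻¹)
    have b1 := t1 _ _ xP xQ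
    have b2 := t1 _ _ xP xR
    have b3 := t1 _ _ xQ xR
    have b4 : (4 : ℝ) / BBi d ^ 2 = 1 / BBi d ^ 2 + 1 / BBi d ^ 2 + 1 / BBi d ^ 2 +
      1 / BBi d ^ 2 := by ring
    linarith
  have hl1 : |l| ≤ 2 / BBi d := by
    have h1 : |l| ^ 2 ≤ (2 / BBi d) ^ 2 := by
      refine hl2.trans (le_of_eq ?_)
      rw [div_pow]
      norm_num
    exact (pow_le_pow_iff_left₀ (abs_nonneg _) (by positivity) (by norm_num)).1 h1
  rw [e, abs_mul, abs_mul, abs_mul]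
  have a2 := tt_sq_le (hQ.mono hle)
  have a3 := tt_sq_le hR
  have h4 : |4 * d ^ 2 * l - 4 * d| ≤ 5 * |d| := by
    have h5 : |4 * d ^ 2 * l| ≤ |d| := by
      rw [abs_mul, abs_mul, abs_pow, abs_of_pos (show (0 : ℝ) < 4 by norm_num)]
      have h6 : 4 * |d| ^ 2 * |l| ≤ 4 * |d| ^ 2 * (2 / BBi d) := by gcongr
      refine h6.trans ?_
      rw [mul_div_assoc', div_le_iff₀ hBpos]
      unfold BBi
      nlinarith
    have h7 : |4 * d| = 4 * |d| := by
      rw [abs_mul, abs_of_pos (show (0 : ℝ) < 4 by norm_num)]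
    have h8 := abs_sub (4 * d ^ 2 * l) (4 * d)
    linarith
  have h5 : |tt Q| * |tt (P + Q)| * BBi d ≤ 2 := by
    nlinarith [sq_nonneg (|tt Q| - |tt (P + Q)|)]
  have h6 : 5 * |d| * (|tt Q| * |tt (P + Q)|) ≤ 1 / 1000 := by
    have h7 : 10000 * |d| ≤ BBi d := by unfold BBi; linarith
    have h8 : |tt Q| * |tt (P + Q)| * (10000 * |d|) ≤ 2 := le_trans (by gcongr) h5
    linarith
  calc |4 * d ^ 2 * l - 4 * d| * |tt P| * |tt Q| * |tt (P + Q)|
      ≤ 5 * |d| * |tt P| * |tt Q| * |tt (P + Q)| := by gcongr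
    _ = (5 * |d| * (|tt Q| * |tt (P + Q)|)) * |tt P| := by ring
    _ ≤ 1 / 1000 * |tt P| := by gcongr
    _ ≤ 1 / 1000 * max |tt P| |tt Q| := by
        gcongr
        exact le_max_left _ _

/-- the radius of the domain -/
noncomputable def r0 (d : ℝ) : ℝ := 1 / (2 * BC d)

theorem BC_two (d : ℝ) : 2 ≤ BC d := (BB_two d).trans (BB_le_BC d)

theorem r0_pos (d : ℝ) : 0 < r0 d := by
  have := BC_two d
  unfold r0
  positivity

/-- small points -/
def Sm (P : E d) (r : ℝ) : Prop := Far (BBi d) P ∧ |tt P| ≤ r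

theorem Sm.far {P : E d} {r : ℝ} (h : Sm P r) (hr : r ≤ r0 d) : Far (BC d) P := by
  obtain ⟨h1 | h1, h2⟩ := h
  · left; exact h1
  · right
    obtain ⟨p1, p2⟩ := BB_rel h1
    obtain ⟨-, -, h3⟩ := tt_rel p1 p2
    have hC := BC_two d
    have h4 : |tt P| ^ 2 ≤ (r0 d) ^ 2 := by
      have : |tt P| ≤ r0 d := h2.trans hr
      gcongr
    have h5 : 2 / 3 ≤ (r0 d) ^ 2 * |xc P| := h3.trans (by gcongr)
    unfold r0 at h5
    rw [div_pow, one_pow, one_div, inv_mul_eq_div, le_div_iff₀ (by positivity)] at h5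
    nlinarith

theorem Sm.mono {P : E d} {r s : ℝ} (h : Sm P r) (hr : r ≤ s) : Sm P s := ⟨h.1, h.2.trans hr⟩

theorem Sm.neg {P : E d} {r : ℝ} (h : Sm P r) : Sm (-P) r :=
  ⟨h.1.neg, by rw [tt_neg, abs_neg]; exact h.2⟩

theorem Sm.nonneg {P : E d} {r : ℝ} (h : Sm P r) : 0 ≤ r := (abs_nonneg _).trans h.2

theorem Sm.add {P Q : E d} {r s : ℝ} (hP : Sm P r) (hQ : Sm Q s) (hr : r ≤ r0 d)
    (hs : s ≤ r0 d) : Sm (P + Q) (r + s + 1 / 1000 * max r s) ∧
      |tt (P + Q) - tt P - tt Q| ≤ 1 / 1000 * max r s := by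
  obtain ⟨h1, h2⟩ := tt_add_le (hP.far hr) (hQ.far hs)
  have h3 : |tt (P + Q) - tt P - tt Q| ≤ 1 / 1000 * max r s := by
    refine h2.trans ?_
    have := max_le_max hP.2 hQ.2
    gcongr
  refine ⟨⟨h1, ?_⟩, h3⟩
  have h4 : tt (P + Q) = (tt (P + Q) - tt P - tt Q) + (tt P + tt Q) := by ring
  rw [h4]
  refine (abs_add_le _ _).trans ?_
  have h5 := abs_add_le (tt P) (tt Q)
  have h6 := hP.2
  have h7 := hQ.2
  linarith

/-- multiples by `-2, ..., 2` -/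
theorem Sm.mul {P : E d} {r : ℝ} (hP : Sm P r) (hr : r ≤ r0 d) (a : ℤ) (ha : |a| ≤ 2) :
    Sm (a • P) ((2 + 1 / 1000) * r) ∧ |tt (a • P) - a * tt P| ≤ 1 / 1000 * r := by
  have h0 := hP.nonneg
  obtain ⟨h1, h2⟩ := hP.add hP hr hr
  rw [max_self] at h1 h2
  obtain ⟨ha1, ha2⟩ := abs_le.1 ha
  interval_cases a
  · rw [neg_smul, two_zsmul]
    refine ⟨(h1.neg).mono (by linarith), ?_⟩
    rw [tt_neg]
    have : -tt (P + P) - ((-2 : ℤ) : ℝ) * tt P = -(tt (P + P) - tt P - tt P) := by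
      push_cast; ring
    rw [this, abs_neg]
    exact h2
  · rw [neg_smul, one_zsmul]
    refine ⟨(hP.neg).mono (by linarith), ?_⟩
    rw [tt_neg]
    have : -tt P - ((-1 : ℤ) : ℝ) * tt P = 0 := by push_cast; ring
    rw [this, abs_zero]
    positivity
  · rw [zero_smul]
    refine ⟨⟨Or.inl rfl, by simp; positivity⟩, ?_⟩
    simp; positivity
  · rw [one_zsmul]
    refine ⟨hP.mono (by linarith), ?_⟩
    simp; positivity
  · rw [two_zsmul]
    refine ⟨h1.mono (by linarith), ?_⟩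
    have : tt (P + P) - ((2 : ℤ) : ℝ) * tt P = tt (P + P) - tt P - tt P := by
      push_cast; ring
    rw [this]
    exact h2

theorem tt_ne {P : E d} (h : Far (BBi d) P) (h0 : P ≠ 0) : 0 < |tt P| := by
  obtain ⟨p1, p2⟩ := BB_rel (h.resolve_left h0)
  obtain ⟨-, -, h3⟩ := tt_rel p1 p2
  by_contra hc
  have : |tt P| = 0 := le_antisymm (not_lt.1 hc) (abs_nonneg _)
  rw [this] at h3
  norm_num at h3

theorem round_le_two {w : ℝ} (hw : |w| ≤ 2 + 1 / 1000) : |round w| ≤ 2 := by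
  have h1 := abs_sub_round w
  obtain ⟨h3, h4⟩ := abs_le.1 h1
  obtain ⟨h5, h6⟩ := abs_le.1 hw
  have h7 : (round w : ℝ) < 3 := by linarith
  have h8 : (-3 : ℝ) < round w := by linarith
  rw [abs_le]
  constructor
  · have : -3 < round w := by exact_mod_cast h8
    omega
  · have : round w < 3 := by exact_mod_cast h7
    omega

/-- one step -/
theorem inf_step1 {ξ η : E d} {ρ : ℝ} (hρ : 15 * ρ ≤ r0 d) (hξ : Sm ξ ρ)
    (hη : Sm η ρ) (hη0 : η ≠ 0) (h : ρ ≤ (2 + 1 / 1000) * |tt η|) :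
    ∃ a : ℤ, Sm (ξ - a • η) (3 / 4 * ρ) := by
  have h0 := hξ.nonneg
  have hpos := tt_ne hη.1 hη0
  have hne : tt η ≠ 0 := abs_pos.1 hpos
  have hw : |tt ξ / tt η| ≤ 2 + 1 / 1000 := by
    rw [abs_div, div_le_iff₀ hpos]
    exact hξ.2.trans h
  refine ⟨round (tt ξ / tt η), ?_⟩
  have h1 := round_le_two hw
  have h3 := abs_sub_round (tt ξ / tt η)
  set a := round (tt ξ / tt η) with ha
  obtain ⟨a1, a2⟩ := hη.mul (by linarith) a h1
  obtain ⟨b1, b2⟩ := hξ.add a1.neg (by linarith) (by linarith)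
  rw [← sub_eq_add_neg] at b1 b2
  refine ⟨b1.1, ?_⟩
  rw [tt_neg] at b2
  have e1 : tt (ξ - a • η) = (tt (ξ - a • η) - tt ξ - -tt (a • η)) +
      (-(tt (a • η) - a * tt η)) + (tt ξ / tt η - a) * tt η := by
    field_simp
    ring
  rw [e1]
  have c1 := abs_add_le ((tt (ξ - a • η) - tt ξ - -tt (a • η)) + (-(tt (a • η) - a * tt η)))
    ((tt ξ / tt η - a) * tt η)
  have c2 := abs_add_le (tt (ξ - a • η) - tt ξ - -tt (a • η)) (-(tt (a • η) - a * tt η))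
  refine c1.trans ?_
  rw [abs_neg] at c2
  rw [abs_mul]
  have h4 : max ρ ((2 + 1 / 1000) * ρ) = (2 + 1 / 1000) * ρ := max_eq_right (by linarith)
  rw [h4] at b2
  have h5 : |tt ξ / tt η - a| * |tt η| ≤ 1 / 2 * ρ := by
    have := hη.2
    gcongr
  linarith

/-- doubling -/
theorem inf_double {η : E d} {ρ : ℝ} (hρ : 15 * ρ ≤ r0 d)
    (hη : Sm η ρ) (hη0 : η ≠ 0) : ∃ k : ℕ, Sm (2 ^ k • η) ρ ∧ 2 ^ k • η ≠ 0 ∧
      ρ ≤ (2 + 1 / 1000) * |tt (2 ^ k • η)| := by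
  have h0 := hη.nonneg
  by_contra hcon
  push Not at hcon
  have hpos := tt_ne hη.1 hη0
  have key : ∀ k : ℕ, Sm (2 ^ k • η) ρ ∧ (3 / 2) ^ k * |tt η| ≤ |tt (2 ^ k • η)| := by
    intro k
    induction k with
    | zero =>
      rw [pow_zero, one_smul, pow_zero, one_mul]
      exact ⟨hη, le_rfl⟩
    | succ k ih =>
      obtain ⟨h1, h2⟩ := ih
      have h3 : 2 ^ k • η ≠ 0 := by
        intro hz
        rw [hz, tt_zero, abs_zero] at h2
        have : 0 < (3 / 2 : ℝ) ^ k * |tt η| := by positivity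
        linarith
      have h4 := hcon k h1 h3
      set P := 2 ^ k • η with hPdef
      have hP : Sm P |tt P| := ⟨h1.1, le_rfl⟩
      have h5 : |tt P| ≤ r0 d := by
        have := h1.2
        linarith
      obtain ⟨h6, h7⟩ := hP.add hP h5 h5
      rw [max_self] at h6 h7
      have h8 : 2 ^ (k + 1) • η = P + P := by
        rw [hPdef, pow_succ, mul_smul, two_smul, smul_add]
      rw [h8]
      refine ⟨h6.mono (by linarith), ?_⟩
      have h9 : (3 / 2) * |tt P| ≤ |tt (P + P)| := by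
        have e1 : (2 : ℝ) * tt P = tt (P + P) - (tt (P + P) - tt P - tt P) := by ring
        have e2 := congrArg abs e1
        rw [abs_mul, abs_of_pos (show (0 : ℝ) < 2 by norm_num)] at e2
        have e3 := abs_sub (tt (P + P)) (tt (P + P) - tt P - tt P)
        rw [← e2] at e3
        have := abs_nonneg (tt P)
        linarith
      calc (3 / 2) ^ (k + 1) * |tt η| = (3 / 2) * ((3 / 2) ^ k * |tt η|) := by ring
        _ ≤ (3 / 2) * |tt P| := by gcongr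
        _ ≤ _ := h9
  obtain ⟨k, hk⟩ := pow_unbounded_of_one_lt (ρ / |tt η|) (show (1 : ℝ) < 3 / 2 by norm_num)
  rw [div_lt_iff₀ hpos] at hk
  obtain ⟨h1, h2⟩ := key k
  have := h1.2
  linarith

theorem inf_step2 {ξ η : E d} {ρ : ℝ} (hρ : 15 * ρ ≤ r0 d) (hξ : Sm ξ ρ)
    (hη : Sm η ρ) (hη0 : η ≠ 0) :
    ∃ a : ℤ, Sm (ξ - a • η) (3 / 4 * ρ) := by
  obtain ⟨k, h1, h2, h3⟩ := inf_double hρ hη hη0
  obtain ⟨a, ha⟩ := inf_step1 hρ hξ h1 h2 h3
  refine ⟨a * ((2 ^ k : ℕ) : ℤ), ?_⟩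
  rw [mul_smul, natCast_zsmul]
  exact ha

theorem inf_iter {η : E d} (hη : Far (BBi d) η) (hη0 : η ≠ 0) (k : ℕ) :
    ∀ (ρ : ℝ) (ξ : E d), 15 * ρ ≤ r0 d → Sm ξ ρ → (3 / 4) ^ k * ρ < |tt η| →
    ∃ a : ℤ, Far (BBi d) (ξ - a • η) ∧ |tt (ξ - a • η)| < |tt η| := by
  induction k with
  | zero =>
    intro ρ ξ _ hξ h
    refine ⟨0, ?_⟩
    rw [zero_smul, sub_zero]
    rw [pow_zero, one_mul] at h
    exact ⟨hξ.1, hξ.2.trans_lt h⟩
  | succ k ih =>
    intro ρ ξ hρ hξ h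
    by_cases hlt : ρ < |tt η|
    · refine ⟨0, ?_⟩
      rw [zero_smul, sub_zero]
      exact ⟨hξ.1, hξ.2.trans_lt hlt⟩
    · push Not at hlt
      obtain ⟨a, ha⟩ := inf_step2 hρ hξ ⟨hη, hlt⟩ hη0
      have h0 := hξ.nonneg
      obtain ⟨b, hb⟩ := ih (3 / 4 * ρ) (ξ - a • η) (by linarith) ha (by
        calc (3 / 4) ^ k * (3 / 4 * ρ) = (3 / 4) ^ (k + 1) * ρ := by ring
          _ < _ := h)
      refine ⟨a + b, ?_⟩
      rw [add_smul, ← sub_sub]
      exact hb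

/-- the multiples of a small nonzero point are dense near zero -/
theorem inf_gen_aux (d : ℝ) : ∃ R₀ : ℝ, ∀ R : ℝ, ∃ N : ℝ, ∀ η : E d, η ≠ 0 → Far N η →
    ∀ ξ : E d, Far R₀ ξ → ∃ k : ℤ, Far R (ξ - k • η) := by
  have hr := r0_pos d
  set r := r0 d / 15 with hrdef
  have hrp : 0 < r := by positivity
  refine ⟨max (BBi d) (2 / r ^ 2), fun R => ⟨max (BBi d) (3 * R), fun η hη0 h1 ξ h2 => ?_⟩⟩
  have hηB : Far (BBi d) η := h1.mono (le_max_left _ _)
  have hξB : Far (BBi d) ξ := h2.mono (le_max_left _ _)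
  have hξr : |tt ξ| ≤ r := by
    by_cases h0 : ξ = 0
    · rw [h0, tt_zero, abs_zero]; exact hrp.le
    · obtain ⟨p1, p2⟩ := BB_rel (hξB.resolve_left h0)
      obtain ⟨-, h3, -⟩ := tt_rel p1 p2
      have h4 : 2 / r ^ 2 ≤ |xc ξ| := (h2.mono (le_max_right _ _)).resolve_left h0
      have h5 : |tt ξ| ^ 2 * (2 / r ^ 2) ≤ 2 := le_trans (by gcongr) h3
      have h6 : |tt ξ| ^ 2 ≤ r ^ 2 := by
        rw [mul_div_assoc', div_le_iff₀ (by positivity)] at h5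
        linarith
      exact (pow_le_pow_iff_left₀ (abs_nonneg _) hrp.le (by norm_num)).1 h6
  have hηp := tt_ne hηB hη0
  obtain ⟨k, hk⟩ : ∃ k : ℕ, (3 / 4 : ℝ) ^ k * r < |tt η| := by
    obtain ⟨k, hk⟩ := exists_pow_lt_of_lt_one (show 0 < |tt η| / r by positivity)
      (show (3 / 4 : ℝ) < 1 by norm_num)
    exact ⟨k, by rwa [lt_div_iff₀ hrp] at hk⟩
  obtain ⟨a, ha1, ha2⟩ := inf_iter hηB hη0 k r ξ (by rw [hrdef]; linarith) ⟨hξB, hξr⟩ hk
  refine ⟨a, ?_⟩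
  rcases ha1 with h0 | h3
  · left; exact h0
  · right
    obtain ⟨p1, p2⟩ := BB_rel h3
    obtain ⟨-, -, h4⟩ := tt_rel p1 p2
    obtain ⟨q1, q2⟩ := BB_rel (hηB.resolve_left hη0)
    obtain ⟨-, h5, -⟩ := tt_rel q1 q2
    have h6 : 3 * R ≤ |xc η| := (h1.mono (le_max_right _ _)).resolve_left hη0
    have h7 : |tt (ξ - a • η)| ^ 2 ≤ |tt η| ^ 2 := by gcongr
    have h8 : 2 / 3 ≤ |tt η| ^ 2 * |xc (ξ - a • η)| := h4.trans (by gcongr)
    have h9 : |tt η| ^ 2 * |xc η| ≤ |tt η| ^ 2 * (3 * |xc (ξ - a • η)|) := by linarith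
    have h10 := le_of_mul_le_mul_left h9 (by positivity)
    linarith

end RC

/-- the multiples of a small nonzero point are dense near zero -/
theorem inf_gen {d : ℝ} (hd : d ≠ 0) : ∃ R₀ : ℝ, ∀ R : ℝ, ∃ N : ℝ, ∀ η : E d, η ≠ 0 → Far N η →
    ∀ ξ : E d, Far R₀ ξ → ∃ k : ℤ, Far R (ξ - k • η) := by
  have _ := hd
  exact RC.inf_gen_aux d

end KumWA
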